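import Pool.Agent.H310R3.Inh.Stmts

/-!
# `TaskRank`: an infinite internal set of natural numbers maps onto the natural numbers
-/

set_option linter.all false
set_option maxHeartbeats 4000000

namespace Pool.Agent.H175R3.Inh

open FirstOrder FirstOrder.Language
open Pool.Agent.Helper672.ZFA
open Pool.Agent.H310 (FinP finP_of_bound)

theorem taskRank : H310R3.Inh.TaskRank := by
  classical
  intro M _ _ V hV hfin
  have hunb : ∀ n : INat M, ∃ v, V v ∧ n ≤ v := by
    intro n
    by_contra h
    push Not at h
    exact hfin (finP_of_bound (n := n) fun m hm => (h m hm).le)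
  -- the counting function
  have hf : IntF M (fun q : INat M × INat M => if V q.1 then INat.succ q.2 else q.2) := by
    have hV1 : Int M (fun q : INat M × INat M => V q.1) := Int.comp hV IntF.fst'
    refine IntF.ite hV1 ?_ ?_
    · exact IntF.succ IntF.snd'
    · exact IntF.snd'
  set r : INat M → INat M := irec 0 (fun n x => if V n then INat.succ x else x) with hr
  have hr0 : r 0 = 0 := irec_zero (f := fun n x => if V n then INat.succ x else x) hf
  have hrs : ∀ n, r n.succ = if V n then INat.succ (r n) else r n := fun n =>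
    irec_succ (f := fun n x => if V n then INat.succ x else x) hf n
  have hrint : IntF M r := by
    rw [hr]
    refine IntF.irec (γ := INat M) (a := fun _ => 0) (f := fun _ n x => if V n then INat.succ x else x)
      (n := fun n => n) (IntF.const _) ?_ IntF.id
    exact IntF.comp (g := fun q : INat M × INat M => if V q.1 then INat.succ q.2 else q.2)
      (f := fun q : (INat M × INat M) × INat M => (q.1.2, q.2)) hf
      (IntF.pair (IntF.snd IntF.fst') IntF.snd')
  have step : ∀ n : INat M, ∃ v, V v ∧ r v = r n := by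
    intro n
    obtain ⟨v, ⟨hv1, hv2⟩, hv3⟩ := INat.exists_least (p := fun v => V v ∧ n ≤ v)
      (Int.and hV (Int.leN (IntF.const _) IntF.id)) (hunb n)
    refine ⟨v, hv1, ?_⟩
    have key : ∀ m : INat M, (m ≤ v ∧ n ≤ m) → r m = r n := by
      refine INat.ind (p := fun m : INat M => (m ≤ v ∧ n ≤ m) → r m = r n) ?_ ?_ ?_
      · exact Int.imp (Int.and (Int.leN IntF.id (IntF.const _)) (Int.leN (IntF.const _) IntF.id))
          (Int.eq hrint (IntF.const _))
      · rintro ⟨-, h⟩
        rw [le_antisymm h (INat.zero_le n)]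
      · rintro m ih ⟨h1, h2⟩
        rcases h2.eq_or_lt with h3 | h3
        · rw [h3]
        · have h4 : n ≤ m := INat.lt_succ_iff.1 h3
          have h5 : m < v := INat.succ_le_iff.1 h1
          have h6 : ¬ V m := fun h => absurd (hv3 m ⟨h, h4⟩) (not_le.2 h5)
          rw [hrs, if_neg h6]
          exact ih ⟨h5.le, h4⟩
    exact key v ⟨le_rfl, hv2⟩
  refine ⟨r, hrint, ?_⟩
  refine INat.ind (p := fun k => ∃ v, V v ∧ r v = k) ?_ ?_ ?_
  · refine Int.ex (Int.and (Int.comp hV IntF.snd') ?_)
    exact Int.eq (IntF.comp hrint IntF.snd') IntF.fst'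
  · obtain ⟨v, h1, h2⟩ := step 0
    exact ⟨v, h1, h2.trans hr0⟩
  · rintro k ⟨v, h1, h2⟩
    obtain ⟨w, h3, h4⟩ := step v.succ
    refine ⟨w, h3, ?_⟩
    rw [h4, hrs, if_pos h1, h2]

end Pool.Agent.H175R3.Inh
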